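import Pool.Agent.J4H96.TC.Stm

/-!
# Project TC (helper96), job ACY: families of involutions with ends suffice
-/

set_option autoImplicit false

namespace Pool.Agent.J4H68.TC

open Pool.Agent.J4H63.GZ Pool.Agent.J4H96.TC

/-- a `Δ₀` predicate has trivial advice -/
theorem adv_of_delta0 {K : ℕ} {R : (Fin K → ℕ) → Prop} (h : Delta0 K R) : Adv R := by
  refine ⟨Fin 0, inferInstance, fun u => R (fun i => u (Sum.inr i)), 1, ?_, fun m => ?_⟩
  · exact ((Bd.of_delta0 h).subst (f := fun i (u : Fin 0 ⊕ Fin K → ℕ) => u (Sum.inr i))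
      fun i => PF.proj _).congr fun v => Iff.rfl
  · exact ⟨fun i => i.elim0, fun i => i.elim0, fun u _ => Iff.rfl⟩

section

variable {z y : ℕ} {H : ℕ → ℕ → ℕ}

/-- every flag is linked with a flag at the level below the roots -/
theorem link_top (hH : ∀ t w, H t w ≤ z) : ∀ n t w, y - 1 - t = n → t < y → w ≤ z →
    ∃ w' ≤ z, Linked (tau z y H) (cd z t w 0 0) (cd z (y - 1) w' 0 0) := by
  intro n
  induction n with
  | zero =>
    intro t w hn ht hw
    obtain rfl : t = y - 1 := by omega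
    exact ⟨w, hw, Relation.ReflTransGen.refl⟩
  | succ n ih =>
    intro t w hn ht hw
    obtain ⟨w', hw', h⟩ := ih (t + 1) (H t w) (by omega) (by omega) (hH _ _)
    exact ⟨w', hw', (link_parent hH (by omega) hw).trans h⟩

theorem tau_ends (hH : ∀ t w, H t w ≤ z) : HasEnds (tau z y H) := by
  intro x
  by_cases hx : x < 4 * (y * (z + 1))
  · obtain ⟨t, w, s, e, ht, hw, hs, he, rfl⟩ := exists_cd hx
    -- to the left side, lower end
    have h1 : Linked (tau z y H) (cd z t w s e) (cd z t w 0 0) := by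
      refine (link_eps t w s e 0 he (by omega)).trans ?_
      obtain rfl | rfl : s = 0 ∨ s = 1 := by omega
      · exact Relation.ReflTransGen.refl
      · exact (flagA hH t ht w hw).symm (tau_tau hH)
    obtain ⟨w', hw', h2⟩ := link_top hH _ t w rfl ht hw
    obtain ⟨x', hx'⟩ := exists_last (H := H) (t := y - 1) hw' rfl
    have hy : y - 1 < y := by omega
    have hA := flagA (y := y) hH (y - 1) hy
    refine ⟨cd z (y - 1) x' 1 1, ?_, ?_⟩
    · exact h1.trans (h2.trans ((link_sib hH hy hA hx' _ w' le_rfl hw' rfl).trans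
        ((hA x' hx'.1).trans (link_eps (y - 1) x' 1 0 1 (by omega) (by omega)))))
    · refine tau_eq ⟨y - 1, x', 1, 1, y - 1, x', 1, 1, hy, hx'.1, by omega, by omega, hy, hx'.1,
        by omega, by omega, rfl, rfl, ?_⟩
      have hl : Last z H (y - 1) x' (H (y - 1) x') := by
        have h3 := hx'.2.1
        rw [← h3] at hx'
        exact hx'
      exact Or.inr (Or.inr (Or.inr ⟨rfl, rfl, Or.inr (Or.inr ⟨hl, by omega, rfl, rfl, rfl, rfl⟩)⟩))
  · exact ⟨x, Relation.ReflTransGen.refl, tau_fix (by omega)⟩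

end

theorem fam_ends {n : ℕ} {h : (Fin (n + 2) → ℕ) → ℕ} (p : Fin (n + 2 + 1) → ℕ) :
    HasEnds (fam h p) := by
  by_cases h0 : 4 * (p 1 * (p 2 + 1)) ≤ p 0
  · have e : fam h p = tau (p 2) (p 1) (stepH h p) := by
      funext x
      unfold fam
      rw [if_pos h0]
    rw [e]
    exact tau_ends fun t w => min_le_right _ _
  · intro x
    refine ⟨x, Relation.ReflTransGen.refl, ?_⟩
    unfold fam
    rw [if_neg h0]

theorem nice_of_ends (H : ∀ (K : ℕ) (τ : (Fin (K + 1) → ℕ) → ℕ → ℕ), InvFamily K τ →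
    (∀ p, HasEnds (τ p)) → Delta0 (K + 3) (LinkRel τ)) {n : ℕ} {f : (Fin n → ℕ) → ℕ}
    (hf : E2 n f) : Nice f := by
  induction hf with
  | zero => exact Nice.of_pf (PF.const 0)
  | succ => exact Nice.of_pf ((PF.proj 0).add (PF.const 1))
  | proj i => exact Nice.of_pf (PF.proj i)
  | mul => exact Nice.of_pf (((PF.proj 0).add (PF.const 1)).mul ((PF.proj 1).add (PF.const 1)))
  | comp _ _ ih1 ih2 => exact Nice.comp ih1 ih2
  | @lrec n g h b F hg hh hb hFb h0 h1 ihg ihh ihb =>
    exact nice_rec_of_adv (adv_cutRel ihg ihh (adv_of_delta0 (H _ _ (fam_inv ihh) fam_ends)))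
      ihg ihh ihb hFb h0 h1

theorem t_ACY : S_ACY := by
  intro H k R hR
  obtain ⟨f, hf, hf'⟩ := hR
  have h := (nice_of_ends H hf).graph (ι := Fin k) (a := fun i v => v i)
    (fun i => PF.proj i) (y := fun _ => 0) (PF.const 0)
  refine Bd.delta0_iff.2 (h.congr fun v => ⟨fun hR => (hf' v).1 hR, fun h0 => ?_⟩)
  by_contra hR
  have h1 := (hf' v).2 hR
  have h2 : f v = 0 := h0
  omega

end Pool.Agent.J4H68.TC
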