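import Pool.Agent.J4H68.TC.Fam

/-!
# Project TC (helper96), job DEC: the decision version
-/

set_option autoImplicit false

namespace Pool.Agent.J4H68.TC

open Pool.Agent.J4H63.GZ Pool.Agent.J4H96.TC

/-- all edges are subdivided, the edges `f` and `g` are removed, and `x`, `y` are joined by a direct edge -/
def AdD (T : ℕ → ℕ) (B f g x y a b : ℕ) : Prop :=
  (∃ c < B, Inc T c b ∧ b ≠ f ∧ b ≠ g ∧ a = 3 * c) ∨ (∃ c < B, Inc T c a ∧ a ≠ f ∧ a ≠ g ∧ b = 3 * c) ∨
    (a = 3 * x ∧ b = 3 * y) ∨ (a = 3 * y ∧ b = 3 * x)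

/-- `f` may be removed at `x` -/
def Ok (T : ℕ → ℕ) (x f : ℕ) : Prop := Inc T x f ∨ T x = x

section

variable {T : ℕ → ℕ}

theorem adD_symm {B f g x y a b : ℕ} (h : AdD T B f g x y a b) : AdD T B f g x y b a := by
  rcases h with h | h | ⟨h, h'⟩ | ⟨h, h'⟩
  · exact Or.inr (Or.inl h)
  · exact Or.inl h
  · exact Or.inr (Or.inr (Or.inr ⟨h', h⟩))
  · exact Or.inr (Or.inr (Or.inl ⟨h', h⟩))

theorem adD_ne {B f g x y a b : ℕ} (hxy : x ≠ y) (h : AdD T B f g x y a b) : a ≠ b := by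
  rcases h with ⟨c, _, h, _, _, rfl⟩ | ⟨c, _, h, _, _, rfl⟩ | ⟨h, h'⟩ | ⟨h, h'⟩
  · have := inc_mod h
    omega
  · have := inc_mod h
    omega
  · omega
  · omega

theorem adD_lt {M f g x y a b : ℕ} (hx : x < 2 * M) (hy : y < 2 * M)
    (h : AdD T (2 * M) f g x y a b) : a < 6 * M := by
  rcases h with ⟨c, hc, _, _, _, rfl⟩ | ⟨c, hc, h, _, _, _⟩ | ⟨h, h'⟩ | ⟨h, h'⟩
  · omega
  · exact inc_lt h hc
  · omega
  · omega

theorem ok_two {u f b c : ℕ} (h : Ok T u f) (hb : Inc T u b) (hc : Inc T u c) (hbf : b ≠ f)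
    (hcf : c ≠ f) : b = c := by
  rcases h with h | h
  · rcases inc_edges hb hc h with h1 | h1 | h1
    · exact h1
    · exact absurd h1 hbf
    · exact absurd h1 hcf
  · rcases hb with hb | hb
    · rcases hc with hc | hc
      · exact hb.trans hc.symm
      · exact absurd h hc.1
    · exact absurd h hb.1

theorem adD_deg (hT : ∀ x, T (T x) = x) {B f g x y a b c d : ℕ} (hxy : x ≠ y) (hx : Ok T x f)
    (hy : Ok T y g) (h1 : AdD T B f g x y a b) (h2 : AdD T B f g x y a c)
    (h3 : AdD T B f g x y a d) : b = c ∨ b = d ∨ c = d := by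
  by_cases ha : a % 3 = 0
  · obtain ⟨u, rfl⟩ : ∃ u, a = 3 * u := ⟨a / 3, by omega⟩
    have nb : ∀ {b}, AdD T B f g x y (3 * u) b →
        (Inc T u b ∧ b ≠ f ∧ b ≠ g) ∨ (u = x ∧ b = 3 * y) ∨ (u = y ∧ b = 3 * x) := by
      rintro b (⟨c, _, h, hf, hg, hc⟩ | ⟨c, _, h, _, _, _⟩ | ⟨h, h'⟩ | ⟨h, h'⟩)
      · obtain rfl : u = c := by omega
        exact Or.inl ⟨h, hf, hg⟩
      · have := inc_mod h
        omega
      · exact Or.inr (Or.inl ⟨by omega, h'⟩)
      · exact Or.inr (Or.inr ⟨by omega, h'⟩)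
    by_cases hux : u = x
    · have k : ∀ {b}, AdD T B f g x y (3 * u) b → (Inc T u b ∧ b ≠ f) ∨ b = 3 * y := by
        intro b hb
        rcases nb hb with h | h | h
        · exact Or.inl ⟨h.1, h.2.1⟩
        · exact Or.inr h.2
        · omega
      rw [← hux] at hx
      rcases k h1 with p1 | p1 <;> rcases k h2 with p2 | p2 <;> rcases k h3 with p3 | p3
      all_goals first
        | exact Or.inl (ok_two hx p1.1 p2.1 p1.2 p2.2)
        | exact Or.inr (Or.inl (ok_two hx p1.1 p3.1 p1.2 p3.2))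
        | exact Or.inr (Or.inr (ok_two hx p2.1 p3.1 p2.2 p3.2))
        | omega
    · by_cases huy : u = y
      · have k : ∀ {b}, AdD T B f g x y (3 * u) b → (Inc T u b ∧ b ≠ g) ∨ b = 3 * x := by
          intro b hb
          rcases nb hb with h | h | h
          · exact Or.inl ⟨h.1, h.2.2⟩
          · omega
          · exact Or.inr h.2
        rw [← huy] at hy
        rcases k h1 with p1 | p1 <;> rcases k h2 with p2 | p2 <;> rcases k h3 with p3 | p3
        all_goals first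
          | exact Or.inl (ok_two hy p1.1 p2.1 p1.2 p2.2)
          | exact Or.inr (Or.inl (ok_two hy p1.1 p3.1 p1.2 p3.2))
          | exact Or.inr (Or.inr (ok_two hy p2.1 p3.1 p2.2 p3.2))
          | omega
      · have k : ∀ {b}, AdD T B f g x y (3 * u) b → Inc T u b := by
          intro b hb
          rcases nb hb with h | h | h
          · exact h.1
          · exact absurd h.1 hux
          · exact absurd h.1 huy
        exact inc_edges (k h1) (k h2) (k h3)
  · have k : ∀ {b}, AdD T B f g x y a b → ∃ c, b = 3 * c ∧ Inc T c a := by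
      rintro b (⟨c, _, h, hf, hg, hc⟩ | ⟨c, _, h, _, _, h'⟩ | ⟨h, h'⟩ | ⟨h, h'⟩)
      · omega
      · exact ⟨c, h', h⟩
      · omega
      · omega
    obtain ⟨u, rfl, hu⟩ := k h1
    obtain ⟨u', rfl, hu'⟩ := k h2
    obtain ⟨u'', rfl, hu''⟩ := k h3
    have := inc_ends hT hu hu' hu''
    omega

/-! ### Linking -/

theorem inc_key (hT : ∀ x, T (T x) = x) {c d : ℕ}
    (h : 3 * min c (T c) + 2 = 3 * min d (T d) + 2) : c = d ∨ d = T c := by
  have e : min c (T c) = min d (T d) := by omega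
  rcases le_total c (T c) with h1 | h1 <;> rcases le_total d (T d) with h2 | h2
  · rw [min_eq_left h1, min_eq_left h2] at e
    exact Or.inl e
  · rw [min_eq_left h1, min_eq_right h2] at e
    right
    rw [e, hT]
  · rw [min_eq_right h1, min_eq_left h2] at e
    exact Or.inr e.symm
  · rw [min_eq_right h1, min_eq_right h2] at e
    left
    rw [← hT c, e, hT]

theorem inc_cases (hT : ∀ x, T (T x) = x) {c d f : ℕ} (h : Inc T c f) (h' : Inc T d f) :
    d / 2 = c / 2 ∨ d = T c := by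
  rcases h with h | ⟨_, h⟩ <;> rcases h' with h' | ⟨_, h'⟩
  · left
    omega
  · omega
  · omega
  · rcases inc_key hT (h.symm.trans h') with h1 | h1
    · left
      rw [h1]
    · exact Or.inr h1

theorem inc_linked (hT : ∀ x, T (T x) = x) {c d f : ℕ} (h : Inc T c f) (h' : Inc T d f) :
    Linked T c d := by
  rcases inc_cases hT h h' with h1 | h1
  · exact Relation.ReflTransGen.single (Or.inr h1)
  · exact Relation.ReflTransGen.single (Or.inl h1)

theorem inc_bd (hT : ∀ x, T (T x) = x) {B c d f : ℕ} (hB : ∀ u < B, T u < B) (h2 : 2 ∣ B)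
    (hc : c < B) (h : Inc T c f) (h' : Inc T d f) : d < B := by
  rcases inc_cases hT h h' with h1 | h1
  · omega
  · rw [h1]
    exact hB c hc

theorem bip_of_not_link (hT : ∀ x, T (T x) = x) {B f g x y : ℕ} (h : ¬ Linked T x y) :
    Bipartite (AdD T B f g x y) := by
  refine ⟨fun a => (a % 3 = 0 ∧ Linked T x (a / 3)) ∨ (a % 3 ≠ 0 ∧ ∀ c, Inc T c a → ¬ Linked T x c),
    ?_⟩
  have key : ∀ c b, Inc T c b → (((3 * c) % 3 = 0 ∧ Linked T x (3 * c / 3)) ∨
      ((3 * c) % 3 ≠ 0 ∧ ∀ c', Inc T c' (3 * c) → ¬ Linked T x c') ↔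
      ¬ ((b % 3 = 0 ∧ Linked T x (b / 3)) ∨ (b % 3 ≠ 0 ∧ ∀ c, Inc T c b → ¬ Linked T x c))) := by
    intro c b hb
    have e : 3 * c / 3 = c := by omega
    have e2 : (3 * c) % 3 = 0 := by omega
    have e3 := inc_mod hb
    rw [e]
    constructor
    · rintro (⟨_, h1⟩ | ⟨h1, _⟩)
      · rintro (⟨h2, _⟩ | ⟨_, h2⟩)
        · exact e3 h2
        · exact h2 c hb h1
      · exact absurd e2 h1
    · intro h1
      left
      refine ⟨e2, ?_⟩
      by_contra h2
      refine h1 (Or.inr ⟨e3, fun c' hc' h3 => h2 (h3.trans (inc_linked hT hc' hb))⟩)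
  rintro a b (⟨c, _, h1, _, _, rfl⟩ | ⟨c, _, h1, _, _, rfl⟩ | ⟨rfl, rfl⟩ | ⟨rfl, rfl⟩)
  · exact key c b h1
  · have := key c a h1
    tauto
  · have e : 3 * x / 3 = x := by omega
    have e' : 3 * y / 3 = y := by omega
    have e2 : (3 * x) % 3 = 0 := by omega
    have e3 : (3 * y) % 3 = 0 := by omega
    simp only [e, e', e2, e3]
    have h0 : Linked T x x := Relation.ReflTransGen.refl
    tauto
  · have e : 3 * x / 3 = x := by omega
    have e' : 3 * y / 3 = y := by omega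
    have e2 : (3 * x) % 3 = 0 := by omega
    have e3 : (3 * y) % 3 = 0 := by omega
    simp only [e, e', e2, e3]
    have h0 : Linked T x x := Relation.ReflTransGen.refl
    tauto

/-- the other edge -/
theorem exists_other {u v h : ℕ} (hh : Inc T v h) : ∃ f, f ≤ 3 * u + 2 ∧ (Inc T u f ∨ f = 0) ∧ Ok T u f ∧
    h ≠ f := by
  have h0 := inc_mod hh
  by_cases hu : T u = u
  · exact ⟨0, by omega, Or.inr rfl, Or.inr hu, fun h => h0 (by omega)⟩
  · have i1 : Inc T u (3 * (2 * (u / 2)) + 1) := Or.inl rfl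
    have i2 : Inc T u (3 * min u (T u) + 2) := Or.inr ⟨hu, rfl⟩
    have hm := min_le_left u (T u)
    by_cases hh1 : h = 3 * (2 * (u / 2)) + 1
    · exact ⟨_, by omega, Or.inl i2, Or.inl i2, by omega⟩
    · exact ⟨_, by omega, Or.inl i1, Or.inl i1, hh1⟩

theorem not_bip_of_link (hT : ∀ x, T (T x) = x) {B x y : ℕ} (hB : ∀ u < B, T u < B) (h2 : 2 ∣ B)
    (hx : x < B) (hxy : x ≠ y) (h : Linked T x y) : ∃ f g, f ≤ 3 * x + 2 ∧ g ≤ 3 * y + 2 ∧
      Ok T x f ∧ Ok T y g ∧ ¬ Bipartite (AdD T B f g x y) := by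
  classical
  let G : SimpleGraph ℕ := SimpleGraph.fromRel (fun c d => ∃ h, Inc T c h ∧ Inc T d h)
  have hG : ∀ {c d}, G.Adj c d → ∃ h, Inc T c h ∧ Inc T d h := by
    intro c d hcd
    rw [SimpleGraph.fromRel_adj] at hcd
    rcases hcd.2 with ⟨h, h1, h2⟩ | ⟨h, h1, h2⟩
    · exact ⟨h, h1, h2⟩
    · exact ⟨h, h2, h1⟩
  have hreach : G.Reachable x y := by
    clear hxy
    induction h with
    | refl => exact SimpleGraph.Reachable.refl _
    | @tail b c _ hbc ih =>
      refine ih.trans ?_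
      by_cases hne : b = c
      · subst hne
        exact SimpleGraph.Reachable.refl _
      · refine SimpleGraph.Adj.reachable ?_
        rw [SimpleGraph.fromRel_adj]
        refine ⟨hne, Or.inl ?_⟩
        rcases hbc with rfl | hbc
        · refine ⟨3 * min b (T b) + 2, Or.inr ⟨fun h => hne h.symm, rfl⟩,
            Or.inr ⟨fun h => hne ?_, ?_⟩⟩
          · rw [hT] at h
            exact h
          · rw [hT, min_comm]
        · exact ⟨3 * (2 * (b / 2)) + 1, Or.inl rfl, Or.inl (by rw [hbc])⟩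
  obtain ⟨p, hp⟩ := hreach.exists_isPath
  have hinj := hp.getVert_injOn
  have hn : 0 < p.length := by
    by_contra h0
    have h0 : p.length = 0 := by omega
    have e1 := p.getVert_zero
    have e2 := p.getVert_length
    rw [h0] at e2
    exact hxy (e1.symm.trans e2)
  have hex : ∀ i : ℕ, ∃ h, i < p.length → Inc T (p.getVert i) h ∧ Inc T (p.getVert (i + 1)) h := by
    intro i
    by_cases hi : i < p.length
    · obtain ⟨h, h1⟩ := hG (p.adj_getVert_succ hi)
      exact ⟨h, fun _ => h1⟩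
    · exact ⟨0, fun h => absurd h hi⟩
  choose e he using hex
  have hlt : ∀ i ≤ p.length, p.getVert i < B := by
    intro i
    induction i with
    | zero =>
      intro _
      rw [p.getVert_zero]
      exact hx
    | succ i ih =>
      intro hi
      obtain ⟨h3, h4⟩ := he i (by omega)
      exact inc_bd hT hB h2 (ih (by omega)) h3 h4
  obtain ⟨f, hf1, hf2, hf3, hf4⟩ := exists_other (u := x) (he 0 hn).1
  obtain ⟨g, hg1, hg2, hg3, hg4⟩ := exists_other (u := y) (he (p.length - 1) (by omega)).1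
  have inj : ∀ i ≤ p.length, ∀ j ≤ p.length, p.getVert i = p.getVert j → i = j :=
    fun i hi j hj hij => hinj hi hj hij
  have hef : ∀ i < p.length, e i ≠ f := by
    intro i hi
    rcases Nat.eq_zero_or_pos i with rfl | hi0
    · exact hf4
    · intro h3
      obtain ⟨h4, h5⟩ := he i hi
      rcases hf2 with hf2 | hf2
      · rw [h3] at h4 h5
        rcases inc_ends hT hf2 h4 h5 with h6 | h6 | h6
        · have := inj 0 (by omega) i (by omega) (by rw [p.getVert_zero]; exact h6)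
          omega
        · have := inj 0 (by omega) (i + 1) (by omega) (by rw [p.getVert_zero]; exact h6)
          omega
        · have := inj i (by omega) (i + 1) (by omega) h6
          omega
      · have := inc_mod h4
        omega
  have heg : ∀ i < p.length, e i ≠ g := by
    intro i hi
    by_cases hi0 : i = p.length - 1
    · rw [hi0]
      exact hg4
    · intro h3
      obtain ⟨h4, h5⟩ := he i hi
      rcases hg2 with hg2 | hg2
      · rw [h3] at h4 h5
        rcases inc_ends hT hg2 h4 h5 with h6 | h6 | h6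
        · have := inj p.length le_rfl i (by omega) (by rw [p.getVert_length]; exact h6)
          omega
        · have := inj p.length le_rfl (i + 1) (by omega) (by rw [p.getVert_length]; exact h6)
          omega
        · have := inj i (by omega) (i + 1) (by omega) h6
          omega
      · have := inc_mod h4
        omega
  refine ⟨f, g, hf1, hg1, hf3, hg3, ?_⟩
  rintro ⟨C, hC⟩
  have hall : ∀ i ≤ p.length, (C (3 * x) ↔ C (3 * p.getVert i)) := by
    intro i
    induction i with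
    | zero =>
      intro _
      rw [p.getVert_zero]
    | succ i ih =>
      intro hi
      obtain ⟨h3, h4⟩ := he i (by omega)
      have c1 := hC (3 * p.getVert i) (e i) (Or.inl ⟨_, hlt i (by omega), h3, hef i (by omega),
        heg i (by omega), rfl⟩)
      have c2 := hC (e i) (3 * p.getVert (i + 1)) (Or.inr (Or.inl ⟨_, hlt (i + 1) hi, h4,
        hef i (by omega), heg i (by omega), rfl⟩))
      have c3 := ih (by omega)
      tauto
  have c1 := hall p.length le_rfl
  rw [p.getVert_length] at c1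
  have c2 := hC (3 * x) (3 * y) (Or.inr (Or.inr (Or.inl ⟨rfl, rfl⟩)))
  tauto

end

/-! ### Definability -/

section

variable {K : ℕ} {τ : (Fin (K + 1) → ℕ) → ℕ → ℕ} {κ : Type}

theorem bd_ok (hτ : InvFamily K τ) {p : Fin (K + 1) → (κ → ℕ) → ℕ} (hp : ∀ i, PF (p i))
    {x f : (κ → ℕ) → ℕ} (hx : PF x) (hf : PF f) :
    Bd (fun v => Ok (τ (fun i => p i v)) (x v) (f v)) :=
  Bd.or (bd_inc hτ hp hx hf) (bd_graph hτ hp hx hx)

theorem bd_adD (hτ : InvFamily K τ) {p : Fin (K + 1) → (κ → ℕ) → ℕ} (hp : ∀ i, PF (p i))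
    {B f g x y a b : (κ → ℕ) → ℕ} (hB : PF B) (hf : PF f) (hg : PF g) (hx : PF x) (hy : PF y)
    (ha : PF a) (hb : PF b) :
    Bd (fun v => AdD (τ (fun i => p i v)) (B v) (f v) (g v) (x v) (y v) (a v) (b v)) := by
  refine Bd.or ?_ (Bd.or ?_ (Bd.or ?_ ?_))
  · refine Bd.ex_lt hB (Bd.and ?_ (Bd.and ?_ (Bd.and ?_ ?_)))
    · exact bd_inc hτ (fun i => (hp i).up) (PF.proj none) hb.up
    · exact Bd.not (Bd.eqf hb.up hf.up)
    · exact Bd.not (Bd.eqf hb.up hg.up)
    · exact Bd.eqf ha.up ((PF.const 3).mul (PF.proj none))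
  · refine Bd.ex_lt hB (Bd.and ?_ (Bd.and ?_ (Bd.and ?_ ?_)))
    · exact bd_inc hτ (fun i => (hp i).up) (PF.proj none) ha.up
    · exact Bd.not (Bd.eqf ha.up hf.up)
    · exact Bd.not (Bd.eqf ha.up hg.up)
    · exact Bd.eqf hb.up ((PF.const 3).mul (PF.proj none))
  · exact Bd.and (Bd.eqf ha ((PF.const 3).mul hx)) (Bd.eqf hb ((PF.const 3).mul hy))
  · exact Bd.and (Bd.eqf ha ((PF.const 3).mul hy)) (Bd.eqf hb ((PF.const 3).mul hx))

/-- the family of graphs -/
def ED (τ : (Fin (K + 1) → ℕ) → ℕ → ℕ) (q : Fin (K + 6 + 1) → ℕ) (a b : ℕ) : Prop :=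
  (q 6 ≤ 2 * q 1 ∧ 6 * q 1 ≤ q 0 ∧ q 2 ≠ q 3 ∧ q 2 < 2 * q 1 ∧ q 3 < 2 * q 1 ∧
    Ok (τ (fun i => q i.succ.succ.succ.succ.succ.succ)) (q 2) (q 4) ∧
    Ok (τ (fun i => q i.succ.succ.succ.succ.succ.succ)) (q 3) (q 5)) ∧
  AdD (τ (fun i => q i.succ.succ.succ.succ.succ.succ)) (2 * q 1) (q 4) (q 5) (q 2) (q 3) a b

theorem ed_family (hτ : InvFamily K τ) : GraphFamily (K + 6) (ED τ) := by
  refine ⟨?_, ?_, ?_, ?_, ?_⟩
  · rintro p a b ⟨h1, h2⟩
    exact ⟨h1, adD_symm h2⟩
  · rintro p a b ⟨h1, h2⟩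
    exact adD_ne h1.2.2.1 h2
  · rintro p a b ⟨h1, h2⟩
    have := adD_lt h1.2.2.2.1 h1.2.2.2.2.1 h2
    have := h1.2.1
    omega
  · rintro p a b c d ⟨h1, h2⟩ ⟨_, h3⟩ ⟨_, h4⟩
    exact adD_deg (hτ.inv _) h1.2.2.1 h1.2.2.2.2.2.1 h1.2.2.2.2.2.2 h2 h3 h4
  · rw [Bd.delta0_iff]
    refine Bd.and (Bd.and ?_ (Bd.and ?_ (Bd.and ?_ (Bd.and ?_ (Bd.and ?_ (Bd.and ?_ ?_)))))) ?_
    · exact Bd.lef (PF.proj _) ((PF.const 2).mul (PF.proj _))
    · exact Bd.lef ((PF.const 6).mul (PF.proj _)) (PF.proj _)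
    · exact Bd.not (Bd.eqf (PF.proj _) (PF.proj _))
    · exact Bd.ltf (PF.proj _) ((PF.const 2).mul (PF.proj _))
    · exact Bd.ltf (PF.proj _) ((PF.const 2).mul (PF.proj _))
    · exact bd_ok hτ (fun i => PF.proj _) (PF.proj _) (PF.proj _)
    · exact bd_ok hτ (fun i => PF.proj _) (PF.proj _) (PF.proj _)
    · exact bd_adD hτ (fun i => PF.proj _) ((PF.const 2).mul (PF.proj _)) (PF.proj _) (PF.proj _)
        (PF.proj _) (PF.proj _) (PF.proj _) (PF.proj _)

end

theorem t_DEC : S_DEC := by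
  intro H K τ hτ
  have h := Bd.of_delta0 (H _ _ (ed_family hτ))
  -- the bound `M = p 0 + x + y + 1`
  have hM : ∀ {κ : Type} {a b c : (κ → ℕ) → ℕ}, PF a → PF b → PF c →
      PF (fun v => a v + b v + c v + 1) := fun ha hb hc => ((ha.add hb).add hc).add (PF.const 1)
  rw [Bd.delta0_iff]
  have hbip : Bd (fun w : Option (Option (Fin (K + 3))) → ℕ =>
      Bipartite (ED τ (fun i => (Matrix.vecCons
        (6 * (w (some (some 2)) + w (some (some 0)) + w (some (some 1)) + 1))
        (Matrix.vecCons (w (some (some 2)) + w (some (some 0)) + w (some (some 1)) + 1)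
          (Matrix.vecCons (w (some (some 0))) (Matrix.vecCons (w (some (some 1)))
            (Matrix.vecCons (w (some none)) (Matrix.vecCons (w none)
              (fun i : Fin (K + 1) => w (some (some i.succ.succ)))))))) : Fin (K + 6 + 1) → ℕ) i))) := by
    have hm := hM (PF.proj (some (some (2 : Fin (K + 3))))) (PF.proj (some (some 0)))
      (PF.proj (some (some 1)))
    exact (h.subst (PF.cons ((PF.const 6).mul hm) (PF.cons hm (PF.cons (PF.proj _)
      (PF.cons (PF.proj _) (PF.cons (PF.proj _) (PF.cons (PF.proj _) fun i => PF.proj _))))))).congr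
      fun v => Iff.rfl
  refine (Bd.or (Bd.eqf (PF.proj 0) (PF.proj 1)) (Bd.and (Bd.not (Bd.eqf (PF.proj 0) (PF.proj 1)))
    (Bd.ex_le (b := fun v : Fin (K + 3) → ℕ => 3 * v 0 + 2)
      (P := fun v f => ∃ g ≤ 3 * v 1 + 2, ¬ Bipartite (ED τ (fun i => (Matrix.vecCons
        (6 * (v 2 + v 0 + v 1 + 1)) (Matrix.vecCons (v 2 + v 0 + v 1 + 1)
          (Matrix.vecCons (v 0) (Matrix.vecCons (v 1) (Matrix.vecCons f (Matrix.vecCons g
            (fun i : Fin (K + 1) => v i.succ.succ)))))) : Fin (K + 6 + 1) → ℕ) i)))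
      (((PF.const 3).mul (PF.proj 0)).add (PF.const 2))
      (Bd.ex_le (((PF.const 3).mul (PF.proj _)).add (PF.const 2)) (Bd.not hbip))))).congr
    fun v => ?_
  set T : ℕ → ℕ := τ (fun i => v i.succ.succ) with hTdef
  have hT : ∀ x, T (T x) = x := hτ.inv _
  set M := v 2 + v 0 + v 1 + 1 with hMdef
  have hB : ∀ u < 2 * M, T u < 2 * M := fun u hu => by
    refine hτ.lt _ ?_ hu
    change v 2 ≤ _
    omega
  change Linked T (v 0) (v 1) ↔ _
  constructor
  · intro hl
    by_cases hxy : v 0 = v 1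
    · exact Or.inl hxy
    · obtain ⟨f, g, hf, hg, hof, hog, hb⟩ := not_bip_of_link hT hB (by omega) (by omega) hxy hl
      refine Or.inr ⟨hxy, f, hf, g, hg, fun hb' => hb ?_⟩
      obtain ⟨C, hC⟩ := hb'
      refine ⟨C, fun a b hab => hC a b ⟨⟨?_, ?_, hxy, ?_, ?_, hof, hog⟩, hab⟩⟩
      · change v 2 ≤ 2 * M
        omega
      · exact le_rfl
      · change v 0 < 2 * M
        omega
      · change v 1 < 2 * M
        omega
  · rintro (hxy | ⟨hxy, f, _, g, _, hb⟩)
    · rw [hxy]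
      exact Relation.ReflTransGen.refl
    · by_contra hl
      refine hb ?_
      obtain ⟨C, hC⟩ := bip_of_not_link (B := 2 * M) (f := f) (g := g) hT hl
      exact ⟨C, fun a b hab => hC a b hab.2⟩

end Pool.Agent.J4H68.TC
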