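import Pool.Agent.J4H96.TC.Stm

/-!
# Project TC (helper96), job FAM: the graph of a family of involutions is a graph family
-/

set_option autoImplicit false

namespace Pool.Agent.J4H68.TC

open Pool.Agent.J4H63.GZ Pool.Agent.J4H96.TC

section

variable {T : ℕ → ℕ}

theorem inc_mod {c f : ℕ} (h : Inc T c f) : f % 3 ≠ 0 := by
  unfold Inc at h
  omega

/-- an edge has at most two ends -/
theorem inc_ends (hT : ∀ x, T (T x) = x) {f c d c' : ℕ} (h : Inc T c f) (h' : Inc T d f)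
    (h'' : Inc T c' f) : c = d ∨ c = c' ∨ d = c' := by
  rcases h with h | ⟨h0, h⟩
  · rcases h' with h' | ⟨_, h'⟩
    · rcases h'' with h'' | ⟨_, h''⟩ <;> omega
    · omega
  · rcases h' with h' | ⟨h0', h'⟩
    · omega
    · rcases h'' with h'' | ⟨h0'', h''⟩
      · omega
      · -- each end is the minimum `m` or `T m`
        have key : ∀ x, f = 3 * min x (T x) + 2 → x = min c (T c) ∨ x = T (min c (T c)) := by
          intro x hx
          have e : min x (T x) = min c (T c) := by omega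
          rcases le_total x (T x) with h1 | h1
          · left
            rw [min_eq_left h1] at e
            exact e
          · right
            rw [min_eq_right h1] at e
            rw [← e, hT]
        have k1 := key c h
        have k2 := key d h'
        have k3 := key c' h''
        omega

/-- a vertex is on at most two edges -/
theorem inc_edges {c f g k : ℕ} (h : Inc T c f) (h' : Inc T c g) (h'' : Inc T c k) :
    f = g ∨ f = k ∨ g = k := by
  rcases h with h | ⟨_, h⟩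
  · rcases h' with h' | ⟨_, h'⟩
    · exact Or.inl (h.trans h'.symm)
    · rcases h'' with h'' | ⟨_, h''⟩
      · exact Or.inr (Or.inl (h.trans h''.symm))
      · exact Or.inr (Or.inr (h'.trans h''.symm))
  · rcases h' with h' | ⟨_, h'⟩
    · rcases h'' with h'' | ⟨_, h''⟩
      · exact Or.inr (Or.inr (h'.trans h''.symm))
      · exact Or.inr (Or.inl (h.trans h''.symm))
    · exact Or.inl (h.trans h'.symm)

theorem adj_symm {B e a b : ℕ} (h : Adj T B e a b) : Adj T B e b a := by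
  rcases h with ⟨c, h⟩ | ⟨c, h⟩ | ⟨c, hc, d, hd, h1, h2, h3, h4, h5⟩
  · exact Or.inr (Or.inl ⟨c, h⟩)
  · exact Or.inl ⟨c, h⟩
  · exact Or.inr (Or.inr ⟨d, hd, c, hc, h1.symm, h3, h2, h5, h4⟩)

theorem adj_ne {B e a b : ℕ} (h : Adj T B e a b) : a ≠ b := by
  rcases h with ⟨c, _, h, _, rfl⟩ | ⟨c, _, h, _, rfl⟩ | ⟨c, hc, d, hd, h1, h2, h3, rfl, rfl⟩
  · have := inc_mod h
    omega
  · have := inc_mod h
    omega
  · omega

theorem inc_lt {c f M : ℕ} (h : Inc T c f) (hc : c < 2 * M) : f < 6 * M := by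
  rcases h with h | ⟨_, h⟩
  · omega
  · have := min_le_left c (T c)
    omega

theorem adj_lt {M e a b : ℕ} (h : Adj T (2 * M) e a b) : a < 6 * M := by
  rcases h with ⟨c, hc, _, _, rfl⟩ | ⟨c, hc, h, _, rfl⟩ | ⟨c, hc, d, hd, h1, h2, h3, rfl, rfl⟩
  · omega
  · exact inc_lt h hc
  · omega

/-- the edge over which a neighbour of `3 c` is reached -/
def Over (T : ℕ → ℕ) (e c b f : ℕ) : Prop :=
  Inc T c f ∧ ((f = b ∧ b ≠ e) ∨ (f = e ∧ ∃ d, c ≠ d ∧ Inc T d e ∧ b = 3 * d))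

theorem exists_over {B e c b : ℕ} (h : Adj T B e (3 * c) b) : ∃ f, Over T e c b f := by
  rcases h with ⟨c', _, h1, h2, h3⟩ | ⟨c', _, h1, _, _⟩ | ⟨c', _, d, _, h1, h2, h3, h4, h5⟩
  · obtain rfl : c = c' := by omega
    exact ⟨b, h1, Or.inl ⟨rfl, h2⟩⟩
  · have := inc_mod h1
    omega
  · obtain rfl : c = c' := by omega
    exact ⟨e, h2, Or.inr ⟨rfl, d, h1, h3, h5⟩⟩

theorem over_inj (hT : ∀ x, T (T x) = x) {e c b b' f : ℕ} (h : Over T e c b f)
    (h' : Over T e c b' f) : b = b' := by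
  obtain ⟨h0, ⟨rfl, h1⟩ | ⟨rfl, d, h1, h2, rfl⟩⟩ := h
  · obtain ⟨_, ⟨h2, _⟩ | ⟨h2, _⟩⟩ := h'
    · exact h2
    · exact absurd h2 h1
  · obtain ⟨_, ⟨h3, h4⟩ | ⟨_, d', h3, h4, rfl⟩⟩ := h'
    · exact absurd h3.symm h4
    · rcases inc_ends hT h0 h2 h4 with h5 | h5 | h5
      · exact absurd h5 h1
      · exact absurd h5 h3
      · rw [h5]

theorem exists_inc {B e a b : ℕ} (ha : a % 3 ≠ 0) (h : Adj T B e a b) :
    ∃ c, b = 3 * c ∧ Inc T c a := by
  rcases h with ⟨c', _, h1, h2, h3⟩ | ⟨c', _, h1, _, h2⟩ | ⟨c', _, d, _, h1, h2, h3, h4, h5⟩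
  · omega
  · exact ⟨c', h2, h1⟩
  · omega

theorem adj_deg (hT : ∀ x, T (T x) = x) {B e a b c d : ℕ} (h1 : Adj T B e a b)
    (h2 : Adj T B e a c) (h3 : Adj T B e a d) : b = c ∨ b = d ∨ c = d := by
  by_cases ha : a % 3 = 0
  · obtain ⟨x, rfl⟩ : ∃ x, a = 3 * x := ⟨a / 3, by omega⟩
    obtain ⟨f, hf⟩ := exists_over h1
    obtain ⟨g, hg⟩ := exists_over h2
    obtain ⟨k, hk⟩ := exists_over h3
    rcases inc_edges hf.1 hg.1 hk.1 with h | h | h
    · subst h
      exact Or.inl (over_inj hT hf hg)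
    · subst h
      exact Or.inr (Or.inl (over_inj hT hf hk))
    · subst h
      exact Or.inr (Or.inr (over_inj hT hg hk))
  · obtain ⟨x, rfl, hx⟩ := exists_inc ha h1
    obtain ⟨x', rfl, hx'⟩ := exists_inc ha h2
    obtain ⟨x'', rfl, hx''⟩ := exists_inc ha h3
    have := inc_ends hT hx hx' hx''
    omega

end

/-! ### Definability -/

section

variable {K : ℕ} {τ : (Fin (K + 1) → ℕ) → ℕ → ℕ} {κ : Type}

theorem bd_graph (hτ : InvFamily K τ) {p : Fin (K + 1) → (κ → ℕ) → ℕ} (hp : ∀ i, PF (p i))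
    {x y : (κ → ℕ) → ℕ} (hx : PF x) (hy : PF y) :
    Bd (fun v => τ (fun i => p i v) (x v) = y v) :=
  ((Bd.of_delta0 hτ.graph).subst
    (f := fun i v => (Matrix.vecCons (x v) (Matrix.vecCons (y v) (fun j => p j v)) :
      Fin (K + 3) → ℕ) i) (PF.cons hx (PF.cons hy hp))).congr fun _ => Iff.rfl

theorem bd_inc (hτ : InvFamily K τ) {p : Fin (K + 1) → (κ → ℕ) → ℕ} (hp : ∀ i, PF (p i))
    {c f : (κ → ℕ) → ℕ} (hc : PF c) (hf : PF f) :
    Bd (fun v => Inc (τ (fun i => p i v)) (c v) (f v)) := by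
  have h1 : Bd (fun v => ∃ j ≤ c v, (c v = 2 * j ∨ c v = 2 * j + 1) ∧ f v = 6 * j + 1) := by
    refine Bd.ex_le hc (Bd.and (Bd.or ?_ ?_) ?_)
    · exact Bd.eqf hc.up ((PF.const 2).mul (PF.proj none))
    · exact Bd.eqf hc.up (((PF.const 2).mul (PF.proj none)).add (PF.const 1))
    · exact Bd.eqf hf.up (((PF.const 6).mul (PF.proj none)).add (PF.const 1))
  have h2 : Bd (fun v => ∃ w ≤ c v, τ (fun i => p i v) (c v) = w ∧ f v = 3 * w + 2) := by
    refine Bd.ex_le hc (Bd.and ?_ ?_)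
    · exact bd_graph hτ (fun i => (hp i).up) hc.up (PF.proj none)
    · exact Bd.eqf hf.up (((PF.const 3).mul (PF.proj none)).add (PF.const 2))
  have h3 : Bd (fun v => ∃ w ≤ c v, τ (fun i => p i v) (c v) = w) :=
    Bd.ex_le hc (bd_graph hτ (fun i => (hp i).up) hc.up (PF.proj none))
  have h4 : Bd (fun v => τ (fun i => p i v) (c v) = c v) := bd_graph hτ hp hc hc
  have h5 : Bd (fun v => f v = 3 * c v + 2) :=
    Bd.eqf hf (((PF.const 3).mul hc).add (PF.const 2))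
  refine (Bd.or h1 (Bd.and (Bd.not h4) (Bd.or h2 (Bd.and (Bd.not h3) h5)))).congr fun v => ?_
  unfold Inc
  constructor
  · rintro (h | ⟨h0, h⟩)
    · exact Or.inl ⟨c v / 2, by omega, by omega, by omega⟩
    · refine Or.inr ⟨h0, ?_⟩
      by_cases hle : τ (fun i => p i v) (c v) ≤ c v
      · exact Or.inl ⟨_, hle, rfl, by omega⟩
      · refine Or.inr ⟨?_, by omega⟩
        rintro ⟨w, hw, hw'⟩
        omega
  · rintro (⟨j, _, h0, h⟩ | ⟨h0, ⟨w, hw, hw', h⟩ | ⟨h1, h⟩⟩)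
    · left
      omega
    · exact Or.inr ⟨h0, by omega⟩
    · refine Or.inr ⟨h0, ?_⟩
      have : ¬ τ (fun i => p i v) (c v) ≤ c v := fun h2 => h1 ⟨_, h2, rfl⟩
      omega

theorem bd_adj (hτ : InvFamily K τ) {p : Fin (K + 1) → (κ → ℕ) → ℕ} (hp : ∀ i, PF (p i))
    {B e a b : (κ → ℕ) → ℕ} (hB : PF B) (he : PF e) (ha : PF a) (hb : PF b) :
    Bd (fun v => Adj (τ (fun i => p i v)) (B v) (e v) (a v) (b v)) := by
  refine Bd.or ?_ (Bd.or ?_ ?_)
  · refine Bd.ex_lt hB (Bd.and ?_ (Bd.and ?_ ?_))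
    · exact bd_inc hτ (fun i => (hp i).up) (PF.proj none) hb.up
    · exact Bd.not (Bd.eqf hb.up he.up)
    · exact Bd.eqf ha.up ((PF.const 3).mul (PF.proj none))
  · refine Bd.ex_lt hB (Bd.and ?_ (Bd.and ?_ ?_))
    · exact bd_inc hτ (fun i => (hp i).up) (PF.proj none) ha.up
    · exact Bd.not (Bd.eqf ha.up he.up)
    · exact Bd.eqf hb.up ((PF.const 3).mul (PF.proj none))
  · refine Bd.ex_lt hB (Bd.ex_lt hB.up (Bd.and ?_ (Bd.and ?_ (Bd.and ?_ (Bd.and ?_ ?_)))))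
    · exact Bd.not (Bd.eqf (PF.proj (some none)) (PF.proj none))
    · exact bd_inc hτ (fun i => (hp i).up.up) (PF.proj (some none)) he.up.up
    · exact bd_inc hτ (fun i => (hp i).up.up) (PF.proj none) he.up.up
    · exact Bd.eqf ha.up.up ((PF.const 3).mul (PF.proj (some none)))
    · exact Bd.eqf hb.up.up ((PF.const 3).mul (PF.proj none))

end

theorem t_FAM : S_FAM := by
  intro K τ hτ
  refine ⟨?_, ?_, ?_, ?_, ?_⟩
  · rintro p a b ⟨h1, h2, h3⟩
    exact ⟨h1, h2, adj_symm h3⟩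
  · rintro p a b ⟨h1, h2, h3⟩
    exact adj_ne h3
  · rintro p a b ⟨h1, h2, h3⟩
    have := adj_lt h3
    omega
  · rintro p a b c d ⟨h1, h2, h3⟩ ⟨_, _, h4⟩ ⟨_, _, h5⟩
    exact adj_deg (hτ.inv _) h3 h4 h5
  · rw [Bd.delta0_iff]
    refine Bd.and (Bd.lef (PF.proj _) ((PF.const 2).mul (PF.proj _))) (Bd.and
      (Bd.lef ((PF.const 6).mul (PF.proj _)) (PF.proj _)) ?_)
    exact bd_adj hτ (fun i => PF.proj _) ((PF.const 2).mul (PF.proj _)) (PF.proj _) (PF.proj _)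
      (PF.proj _)

end Pool.Agent.J4H68.TC
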