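import Pool.Agent.J4H96.TC.Stm

/-!
# Project TC (helper96), job LB: disjoint unions of paths are bipartite
-/

set_option autoImplicit false

namespace Pool.Agent.J4H68.TC

open Pool.Agent.J4H96.TC

section

variable {E : ℕ → ℕ → Prop}

/-- there is a walk of length `k` from `r` to `v` -/
def Wk (E : ℕ → ℕ → Prop) (r : ℕ) : ℕ → ℕ → Prop
  | 0, v => v = r
  | k + 1, v => ∃ u, Wk E r k u ∧ E u v

/-- `v` has distance `k` from `r` -/
def Ds (E : ℕ → ℕ → Prop) (r k v : ℕ) : Prop := Wk E r k v ∧ ∀ j < k, ¬ Wk E r j v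

theorem exists_wk {r v : ℕ} (h : Relation.ReflTransGen E r v) : ∃ k, Wk E r k v := by
  induction h with
  | refl => exact ⟨0, rfl⟩
  | @tail b c _ hbc ih =>
    obtain ⟨k, hk⟩ := ih
    exact ⟨k + 1, b, hk, hbc⟩

theorem exists_ds {r v : ℕ} (h : Relation.ReflTransGen E r v) : ∃ k, Ds E r k v := by
  classical
  have hex := exists_wk h
  exact ⟨Nat.find hex, Nat.find_spec hex, fun j hj => Nat.find_min hex hj⟩

theorem Ds.unique {r k l v : ℕ} (h : Ds E r k v) (h' : Ds E r l v) : k = l := by
  rcases Nat.lt_trichotomy k l with h1 | h1 | h1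
  · exact absurd h.1 (h'.2 k h1)
  · exact h1
  · exact absurd h'.1 (h.2 l h1)

theorem Ds.le {r k l a b : ℕ} (h : Ds E r k a) (h' : Ds E r l b) (hab : E a b) : l ≤ k + 1 := by
  by_contra hlt
  exact h'.2 (k + 1) (by omega) ⟨a, h.1, hab⟩

theorem Ds.pred {r k v : ℕ} (h : Ds E r (k + 1) v) : ∃ u, Ds E r k u ∧ E u v := by
  obtain ⟨⟨u, hu, huv⟩, h2⟩ := h
  exact ⟨u, ⟨hu, fun j hj hj' => h2 (j + 1) (by omega) ⟨u, hj', huv⟩⟩, huv⟩

theorem Ds.inj (hs : ∀ a b, E a b → E b a)
    (hd : ∀ a b c d, E a b → E a c → E a d → b = c ∨ b = d ∨ c = d) {r : ℕ}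
    (hr : ∀ c d, E r c → E r d → c = d) : ∀ k v v', Ds E r k v → Ds E r k v' → v = v' := by
  intro k
  induction k with
  | zero =>
    intro v v' h h'
    exact (h.1 : v = r).trans (h'.1 : v' = r).symm
  | succ k ih =>
    intro v v' h h'
    obtain ⟨u, hu, huv⟩ := h.pred
    obtain ⟨u', hu', huv'⟩ := h'.pred
    obtain rfl := ih u u' hu hu'
    cases k with
    | zero =>
      have : u = r := hu.1
      subst this
      exact hr v v' huv huv'
    | succ k =>
      obtain ⟨w, hw, hwu⟩ := hu.pred
      rcases hd u v v' w huv huv' (hs _ _ hwu) with h1 | h1 | h1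
      · exact h1
      · subst h1
        have := h.unique hw
        omega
      · subst h1
        have := h'.unique hw
        omega

end

theorem t_LB : S_LB := by
  classical
  intro E hs hne hd hp
  have hsymm : ∀ {a b}, Relation.ReflTransGen E a b → Relation.ReflTransGen E b a := by
    intro a b h
    induction h with
    | refl => exact Relation.ReflTransGen.refl
    | tail _ hbc ih => exact (Relation.ReflTransGen.single (hs _ _ hbc)).trans ih
  -- the least end of the component
  let r : ℕ → ℕ := fun a => Nat.find (hp a)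
  have hr : ∀ a, Relation.ReflTransGen E a (r a) ∧ ∀ c d, E (r a) c → E (r a) d → c = d :=
    fun a => Nat.find_spec (hp a)
  have hreq : ∀ a b, E a b → r a = r b := by
    intro a b hab
    have e : (fun x => Relation.ReflTransGen E a x ∧ ∀ c d, E x c → E x d → c = d) =
        fun x => Relation.ReflTransGen E b x ∧ ∀ c d, E x c → E x d → c = d := by
      funext x
      refine propext ⟨fun h => ⟨?_, h.2⟩, fun h => ⟨?_, h.2⟩⟩
      · exact (Relation.ReflTransGen.single (hs _ _ hab)).trans h.1
      · exact (Relation.ReflTransGen.single hab).trans h.1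
    apply le_antisymm
    · refine Nat.find_min' (hp a) ?_
      have := hr b
      exact ⟨(Relation.ReflTransGen.single hab).trans this.1, this.2⟩
    · refine Nat.find_min' (hp b) ?_
      have := hr a
      exact ⟨(Relation.ReflTransGen.single (hs _ _ hab)).trans this.1, this.2⟩
  refine ⟨fun a => ∃ k, Ds E (r a) k a ∧ k % 2 = 0, fun a b hab => ?_⟩
  obtain ⟨k, hk⟩ := exists_ds (hsymm (hr a).1)
  obtain ⟨l, hl⟩ := exists_ds (hsymm (hr b).1)
  have hl' : Ds E (r a) l b := by
    rw [hreq a b hab]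
    exact hl
  have h1 := hk.le hl' hab
  have h2 := hl'.le hk (hs _ _ hab)
  have h3 : k ≠ l := by
    rintro rfl
    exact hne _ _ hab (Ds.inj hs hd (hr a).2 k a b hk hl')
  constructor
  · rintro ⟨k', hk', he⟩ ⟨l', hl'', he'⟩
    have := hk.unique hk'
    have := hl.unique hl''
    omega
  · intro h
    refine ⟨k, hk, ?_⟩
    by_contra he
    exact h ⟨l, hl, by omega⟩

end Pool.Agent.J4H68.TC
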